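import Mathlib
import Pool.Agent.X30.WS7

/-!
# `2 k + 1` distinct randomly shifted `k`-th powers: the asymptotic formula
-/

set_option autoImplicit false

namespace Pool.Agent.Results.MP_efcac8_nt.DistinctTwoKPlusOne

open MeasureTheory ProbabilityTheory Filter Topology

/-- the number of values of the random shift with index `m`: it is at most `m ^ η`, for `m ≥ 1`, `η ≥ 0` -/
noncomputable def size (η : ℝ) (m : ℕ) : ℕ := 2 ^ ⌊η * Nat.log 2 m⌋₊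

/-- the left end of the interval of length `2 ^ ⌊h log₂ n⌋` containing `n` (`log₂` rounded down) -/
noncomputable def base (h : ℝ) (n : ℕ) : ℕ :=
  2 ^ ⌊h * Nat.log 2 n⌋₊ * (n / 2 ^ ⌊h * Nat.log 2 n⌋₊)

/-- the number of ordered `(2 k + 1)`-tuples of pairwise distinct positive integers `x_i` with
`∑ (x_i ^ k + a (base h x_i)) = N` -/
noncomputable def R (k : ℕ) (h : ℝ) (a : ℕ → ℕ) (N : ℕ) : ℕ :=
  {x : Fin (2 * k + 1) → ℕ | (∀ i, 1 ≤ x i) ∧ Function.Injective x ∧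
    ∑ i, (x i ^ k + a (base h (x i))) = N}.ncard

theorem result (k q : ℕ) (hq1 : 1 ≤ q) (hq : q + 2 ≤ k) (hs : 2 ^ q ≤ 2 * k) (η h : ℝ)
    (hη : ((k : ℝ) - η) * (2 * k + 1 + q * 2 ^ q) < (2 * k + 1) * (q + 1)) (hη1 : η ≤ k - 1)
    (hh0 : 0 ≤ h) (hh : h < 1 / (2 * k + 1))
    {Ω : Type*} [MeasurableSpace Ω] (μ : Measure Ω) [IsProbabilityMeasure μ]
    (δ : ℕ → Ω → ℕ) (hm : ∀ m, Measurable (δ m)) (hind : iIndepFun δ μ)
    (hu : ∀ m, ∀ d < size η m, μ {ω | δ m ω = d} = 1 / (size η m : ENNReal)) :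
    ∀ᵐ ω ∂μ, Tendsto (fun N : ℕ => (R k h (fun m => δ m ω) N : ℝ) / (N : ℝ) ^ (1 + 1 / (k : ℝ))) atTop
      (𝓝 (Real.Gamma (1 + 1 / k) ^ (2 * k + 1) / Real.Gamma (2 + 1 / k))) := by
  have hk0 : (0 : ℝ) < k := by exact_mod_cast (by omega : 0 < k)
  have hh' : h * (2 * k + 1) < 1 := by
    rw [lt_div_iff₀ (by positivity)] at hh
    exact hh
  obtain ⟨n, hn⟩ : ∃ n, 2 * k + 1 = n + 2 := ⟨2 * k - 1, by omega⟩
  have hnR : ((n + 2 : ℕ) : ℝ) = 2 * k + 1 := by rw [← hn]; push_cast; ring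
  have h1 := Pool.Agent.X30.WS.asymp_inj2 k q n hq1 hq
    (by
      have : 2 ^ q < n + 2 := by omega
      exact_mod_cast this) η h
    (by rw [hnR]; exact hη) hη1 hh0 (by rw [hnR]; linarith) δ hm hind hu
  have h2 : (((n + 2 : ℕ) : ℝ) / k - 1) = 1 + 1 / (k : ℝ) := by
    rw [hnR]
    field_simp
    ring
  have h3 : (((n + 2 : ℕ) : ℝ) / k) = 2 + 1 / (k : ℝ) := by
    rw [hnR]
    field_simp
  rw [h2, h3, ← hn] at h1
  exact h1

end Pool.Agent.Results.MP_efcac8_nt.DistinctTwoKPlusOne
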