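import Pool.Agent.X114.MV.Main

/-!
MP_efcac8_nt, Q1 (is `G(k) ≤ 2k + 1`?): the metric form of the question.

For positive real coefficients `l_1, …, l_s` ask whether every large integer is the integer part of
`∑ l_j x_j ^ k` at positive integers `x_j`. When all the coefficients are `1` this says that every large
integer is a sum of `s` positive `k`-th powers (see `universal_one_iff`). We prove it for almost all
coefficients with `s = k + ⌊log₂ k⌋ + 2 ≤ 2k + 1` variables; `s ≥ k` is necessary.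
-/

set_option autoImplicit false

namespace Pool.Agent.Results.MP_efcac8_nt.MetricDiagonal

open Filter MeasureTheory

/-- Every large integer is the integer part of `∑ l_j x_j ^ k` for some positive integers `x_j`. -/
def Universal (k s : ℕ) (l : Fin s → ℝ) : Prop :=
  ∀ᶠ n : ℕ in atTop, ∃ x : Fin s → ℕ, (∀ j, 0 < x j) ∧ ⌊∑ j, l j * (x j : ℝ) ^ k⌋₊ = n

/-- If all the coefficients are `1`, the property says that every large integer is a sum of `s`
positive `k`-th powers. -/
theorem universal_one_iff (k s : ℕ) : Universal k s (fun _ => 1) ↔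
    ∀ᶠ n : ℕ in atTop, ∃ x : Fin s → ℕ, (∀ j, 0 < x j) ∧ ∑ j, x j ^ k = n := by
  unfold Universal
  have h : ∀ x : Fin s → ℕ, ⌊∑ j, (1 : ℝ) * (x j : ℝ) ^ k⌋₊ = ∑ j, x j ^ k := by
    intro x
    have : ∑ j, (1 : ℝ) * (x j : ℝ) ^ k = ((∑ j, x j ^ k : ℕ) : ℝ) := by
      push_cast
      exact Finset.sum_congr rfl fun j _ => one_mul _
    rw [this, Nat.floor_natCast]
  simp only [h]

/-- The number of variables used below is at most `2k + 1`. -/
theorem vars_le {k : ℕ} (hk : 2 ≤ k) : k + Nat.log 2 k + 2 ≤ 2 * k + 1 := by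
  have h : Nat.log 2 k < k := Nat.log_lt_of_lt_pow (by omega) Nat.lt_two_pow_self
  omega

theorem result (k : ℕ) (hk : 2 ≤ k) :
    -- (1) approximation of all large reals in `k + 1 + j` variables, where `2 ^ j > k`
    (∀ (j : ℕ) (κ : ℝ), 0 ≤ κ → 1 + κ < 2 ^ j * (1 / (k : ℝ) - κ) →
      ∀ᵐ l : Fin (k + 1 + j) → ℝ, (∀ i, 0 < l i) → ∀ᶠ N : ℝ in atTop,
        ∃ x : Fin (k + 1 + j) → ℕ, (∀ i, 0 < x i) ∧
          |∑ i, l i * (x i : ℝ) ^ k - N| < N ^ (-κ)) ∧
    -- (2) integer parts, with `k + ⌊log₂ k⌋ + 2` variables or more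
    (∀ s : ℕ, k + Nat.log 2 k + 2 ≤ s → ∀ᵐ l : Fin s → ℝ, (∀ i, 0 < l i) → Universal k s l) := by
  obtain ⟨r, rfl⟩ : ∃ r, k = r + 1 := ⟨k - 1, by omega⟩
  have hr : 1 ≤ r := by omega
  constructor
  · intro j κ hκ hj
    obtain ⟨η, h1, h2⟩ := exists_between hj
    have h3 := Pool.Agent.X114.MV.final hκ h1 (Pool.Agent.X114.MV.St_iter hr hκ j h2) one_pos
    filter_upwards [h3] with l hl hpos
    filter_upwards [hl hpos] with N hN
    simpa using hN
  · intro s hs
    obtain ⟨j, rfl⟩ : ∃ j, s = r + 2 + j := ⟨s - (r + 2), by omega⟩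
    have hj : Nat.log 2 (r + 1) + 1 ≤ j := by omega
    have h2j : r + 1 < 2 ^ j :=
      lt_of_lt_of_le (Nat.lt_pow_succ_log_self (by norm_num) _)
        (Nat.pow_le_pow_right (by norm_num) hj)
    have hlt : 1 + (0 : ℝ) < 2 ^ j * (1 / ((r + 1 : ℕ) : ℝ) - 0) := by
      have h4 : ((r + 1 : ℕ) : ℝ) < 2 ^ j := by exact_mod_cast h2j
      rw [sub_zero, add_zero, mul_one_div, lt_div_iff₀ (by positivity), one_mul]
      exact h4
    obtain ⟨η, h1, h2⟩ := exists_between hlt
    have h3 := Pool.Agent.X114.MV.final le_rfl h1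
      (Pool.Agent.X114.MV.St_iter hr le_rfl j h2) (c := 1 / 2) (by norm_num)
    filter_upwards [h3] with l hl hpos
    have h4 : Tendsto (fun n : ℕ => (n : ℝ) + 1 / 2) atTop atTop :=
      tendsto_atTop_add_const_right _ _ tendsto_natCast_atTop_atTop
    unfold Universal
    filter_upwards [h4.eventually (hl hpos)] with n hn
    obtain ⟨x, hx, hxn⟩ := hn
    refine ⟨x, hx, ?_⟩
    rw [neg_zero, Real.rpow_zero, mul_one, abs_lt] at hxn
    rw [Nat.floor_eq_iff (Finset.sum_nonneg fun i _ => mul_nonneg (hpos i).le (by positivity))]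
    constructor <;> linarith [hxn.1, hxn.2]

end Pool.Agent.Results.MP_efcac8_nt.MetricDiagonal
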