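import Pool.Agent.X62.MP.Met
import Pool.Agent.X114.WR.Dim

/-!
MP_efcac8_nt, Q1: for almost all real `α`, the fractional parts of `α m`, where `m ≤ N` runs through the sums of
`2 k + 1` (of `O(k)`) `k`-th powers, leave no gap longer than `N ^ (-0.632)` (than `N ^ (-1 + ε)`).
-/

set_option autoImplicit false

namespace Pool.Agent.Results.MP_efcac8_nt.MetricFractionalParts

open Finset Filter MeasureTheory

/-- `n` is a sum of `t` `k`-th powers of positive integers. -/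
def IsSum (k t n : ℕ) : Prop := ∃ x : Fin t → ℕ, (∀ i, 0 < x i) ∧ ∑ i, x i ^ k = n

/-- for some sum `m ≤ N` of `t` `k`-th powers the distance of `α m` and `β` modulo one is at most `δ` -/
def Approx (k t N : ℕ) (δ α β : ℝ) : Prop :=
  ∃ m : ℕ, m ≤ N ∧ IsSum k t m ∧ ∃ z : ℤ, |α * m - β - z| ≤ δ

/-- For almost all `α`, for all large `N` and for all `β`: `β` is approximated with exponent `e`. -/
def Exponent (k t : ℕ) (e : ℝ) : Prop :=
  ∀ᵐ α : ℝ, ∀ᶠ N : ℕ in atTop, ∀ β : ℝ, Approx k t N ((N : ℝ) ^ (-e)) α β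

/-- the exponent `(1 - 1 / k) ^ s` -/
noncomputable def μ (k s : ℕ) : ℝ := (1 - 1 / (k : ℝ)) ^ s

lemma μ_nonneg {k : ℕ} (hk : 2 ≤ k) (s : ℕ) : 0 ≤ μ k s := by
  have hk0 : (2 : ℝ) ≤ k := by exact_mod_cast hk
  exact pow_nonneg (by rw [sub_nonneg, div_le_one (by linarith)]; linarith) _

lemma μ_lt_one {k s : ℕ} (hk : 2 ≤ k) (hs : 1 ≤ s) : μ k s < 1 := by
  have hk0 : (2 : ℝ) ≤ k := by exact_mod_cast hk
  have h1 : (0 : ℝ) < 1 / k := by positivity
  have h2 : (0 : ℝ) ≤ 1 - 1 / k := by rw [sub_nonneg, div_le_one (by linarith)]; linarith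
  exact pow_lt_one₀ h2 (by linarith) (by omega)

lemma μ_exp {k : ℕ} (hk : 2 ≤ k) (m : ℕ) : μ k (k * m) ≤ Real.exp (-m) := by
  have hk0 : (0 : ℝ) < k := by exact_mod_cast (by omega : 0 < k)
  have hk2 : (2 : ℝ) ≤ k := by exact_mod_cast hk
  have h0 : (0 : ℝ) ≤ 1 - 1 / (k : ℝ) := by rw [sub_nonneg, div_le_one hk0]; linarith
  have h1 : 1 - 1 / (k : ℝ) ≤ Real.exp (-(1 / k)) := by
    have := Real.add_one_le_exp (-(1 / (k : ℝ)))
    linarith
  calc μ k (k * m) ≤ Real.exp (-(1 / k)) ^ (k * m) := pow_le_pow_left₀ h0 h1 _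
    _ = Real.exp (-m) := by
        rw [← Real.exp_nat_mul]
        congr 1
        push_cast
        field_simp

lemma exp_neg_1 : Real.exp (-(1 : ℕ)) ≤ 0.3679 := by
  have h1 := Real.exp_one_gt_d9
  have h2 : Real.exp (-(1 : ℕ)) = (Real.exp 1)⁻¹ := by
    rw [← Real.exp_neg]; norm_num
  rw [h2]
  have h4 : (Real.exp 1)⁻¹ ≤ ((2.7182818283 : ℝ))⁻¹ := inv_anti₀ (by positivity) h1.le
  refine h4.trans ?_
  norm_num

lemma exp_neg_2 : Real.exp (-(2 : ℕ)) ≤ 0.1354 := by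
  have h1 := Real.exp_one_gt_d9
  have h2 : Real.exp (-(2 : ℕ)) = (Real.exp 1 ^ 2)⁻¹ := by
    rw [← Real.exp_nat_mul, ← Real.exp_neg]; norm_num
  rw [h2]
  have h3 : (2.7182818283 : ℝ) ^ 2 ≤ Real.exp 1 ^ 2 := pow_le_pow_left₀ (by norm_num) h1.le _
  have h4 : (Real.exp 1 ^ 2)⁻¹ ≤ ((2.7182818283 : ℝ) ^ 2)⁻¹ := inv_anti₀ (by positivity) h3
  refine h4.trans ?_
  norm_num

lemma Exponent.mono {k t : ℕ} {e e' : ℝ} (h : Exponent k t e') (he : e ≤ e') : Exponent k t e := by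
  unfold Exponent at h ⊢
  filter_upwards [h] with α hα
  filter_upwards [hα, eventually_ge_atTop 1] with N hN hN1
  intro β
  obtain ⟨m, h1, h2, z, h3⟩ := hN β
  refine ⟨m, h1, h2, z, h3.trans ?_⟩
  exact Real.rpow_le_rpow_of_exponent_le (by exact_mod_cast hN1) (by linarith)

/-- a constant factor is absorbed -/
lemma absorb {e e' : ℝ} (he : e < e') (he0 : 0 ≤ e') : ∀ᶠ N : ℕ in atTop, ∀ M : ℝ, (N : ℝ) / 2 ≤ M →
    M ^ (-e') ≤ (N : ℝ) ^ (-e) := by
  have h1 : Tendsto (fun N : ℕ => ((N : ℝ)) ^ (e' - e)) atTop atTop :=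
    (tendsto_rpow_atTop (by linarith)).comp tendsto_natCast_atTop_atTop
  filter_upwards [h1.eventually_ge_atTop (2 ^ e'), eventually_ge_atTop 1] with N hN hN1
  intro M hM
  have hNr : (0 : ℝ) < N := by exact_mod_cast (by omega : 0 < N)
  calc M ^ (-e') ≤ ((N : ℝ) / 2) ^ (-e') :=
        Real.rpow_le_rpow_of_nonpos (by positivity) hM (by linarith)
    _ = (N : ℝ) ^ (-e') * 2 ^ e' := by
        rw [Real.div_rpow hNr.le (by norm_num), Real.rpow_neg (by norm_num : (0 : ℝ) ≤ 2)]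
        field_simp
    _ ≤ (N : ℝ) ^ (-e') * (N : ℝ) ^ (e' - e) := by gcongr
    _ = (N : ℝ) ^ (-e) := by rw [← Real.rpow_add hNr]; congr 1; ring

/-- one more summand -/
lemma Exponent.succ {k t : ℕ} {e e' : ℝ} (h : Exponent k t e') (he : e < e') (he0 : 0 ≤ e') :
    Exponent k (t + 1) e := by
  unfold Exponent at h ⊢
  filter_upwards [h] with α hα
  have hα' : ∀ᶠ N : ℕ in atTop, ∀ β : ℝ, Approx k t (N - 1) (((N - 1 : ℕ) : ℝ) ^ (-e')) α β :=
    (tendsto_sub_atTop_nat 1).eventually hα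
  filter_upwards [hα', absorb he he0, eventually_ge_atTop 2] with N hN hN1 hN2
  intro β
  obtain ⟨m, h1, ⟨x, hx1, hx2⟩, z, h3⟩ := hN (β - α)
  refine ⟨m + 1, by omega, ⟨Fin.cons 1 x, ?_, ?_⟩, z, ?_⟩
  · intro i
    refine Fin.cases ?_ (fun i => ?_) i
    · simp
    · simp only [Fin.cons_succ]; exact hx1 i
  · rw [Fin.sum_univ_succ]
    simp only [Fin.cons_zero, Fin.cons_succ, one_pow]
    rw [hx2, add_comm]
  · have h4 : α * ((m + 1 : ℕ) : ℝ) - β - z = α * m - (β - α) - z := by push_cast; ring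
    rw [h4]
    refine h3.trans (hN1 _ ?_)
    rw [Nat.cast_sub (by omega)]
    have : (2 : ℝ) ≤ N := by exact_mod_cast hN2
    push_cast
    linarith

/-- the main estimate -/
theorem main {k s : ℕ} (hk : 2 ≤ k) (hs : 1 ≤ s) {e : ℝ} (he : e < 1 - μ k s) : Exponent k (2 * s) e := by
  classical
  have hμ0 := μ_nonneg hk s
  have hμ1 := μ_lt_one hk hs
  obtain ⟨c, hc, N0, HN⟩ := Pool.Agent.X114.WR.dim_ranges k hk s
  change ∀ N : ℕ, N0 ≤ N → ∃ S : Finset ℕ, (∀ a ∈ S, a ≤ N ∧ Pool.Agent.X114.WR.Rep k s a) ∧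
      c * (N : ℝ) ^ (1 - μ k s) ≤ S.card at HN
  set m := μ k s with hm
  -- an intermediate exponent
  obtain ⟨e', he1, he2⟩ := exists_between (max_lt he (by linarith : 0 < 1 - m))
  have hee' : e < e' := (le_max_left _ _).trans_lt he1
  have he'0 : 0 < e' := (le_max_right _ _).trans_lt he1
  have hlarge : ∀ j : ℕ, ∃ S : Finset ℕ, (∀ a ∈ S, a ≤ 2 ^ (j + N0) ∧ Pool.Agent.X114.WR.Rep k s a) ∧
      c * ((2 ^ (j + N0) : ℕ) : ℝ) ^ (1 - m) ≤ S.card := by
    intro j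
    apply HN
    have h1 : j + N0 < 2 ^ (j + N0) := Nat.lt_two_pow_self
    omega
  choose S hS1 hS2 using hlarge
  set δ : ℕ → ℝ := fun j => ((2 ^ (j + N0 + 1) : ℕ) : ℝ) ^ (-e') with hδ
  have hδ0 : ∀ j, 0 < δ j := fun j => by
    simp only [hδ]; positivity
  have hδ1 : ∀ j, δ j ≤ 1 := by
    intro j
    simp only [hδ]
    apply Real.rpow_le_one_of_one_le_of_nonpos _ (by linarith)
    exact_mod_cast Nat.one_le_two_pow
  have hSne : ∀ j, (S j).Nonempty := by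
    intro j
    rw [← card_pos]
    have h1 : (0 : ℝ) < (S j).card := lt_of_lt_of_le (by positivity) (hS2 j)
    exact_mod_cast h1
  -- the sum of the measures
  set ρ : ℝ := (2 : ℝ) ^ (-(1 - m - e')) with hρ
  have hρ0 : 0 < ρ := by positivity
  have hρ1 : ρ < 1 := Real.rpow_lt_one_of_one_lt_of_neg (by norm_num) (by linarith)
  set K : ℝ := 16 * 2 ^ e' / c with hK
  have hK0 : 0 < K := by positivity
  have hterm : ∀ j, 16 / (δ j * (S j).card) ≤ K * ρ ^ j := by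
    intro j
    have hSj : (0 : ℝ) < (S j).card := by exact_mod_cast (hSne j).card_pos
    rw [div_le_iff₀ (mul_pos (hδ0 j) hSj)]
    have h1 : K * ρ ^ j * (δ j * (c * ((2 ^ (j + N0) : ℕ) : ℝ) ^ (1 - m))) ≤ K * ρ ^ j * (δ j * (S j).card) := by
      have := hδ0 j
      gcongr
      exact hS2 j
    refine le_trans ?_ h1
    have e1 : ρ ^ j = (2 : ℝ) ^ (-(1 - m - e') * j) := by
      rw [hρ, Real.rpow_mul_natCast (by norm_num)]
    have e2 : δ j = (2 : ℝ) ^ (-e' * (j + N0 + 1)) := by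
      simp only [hδ]
      push_cast
      rw [← Real.rpow_natCast, ← Real.rpow_mul (by norm_num)]
      congr 1; push_cast; ring
    have e3 : ((2 ^ (j + N0) : ℕ) : ℝ) ^ (1 - m) = (2 : ℝ) ^ ((1 - m) * (j + N0)) := by
      push_cast
      rw [← Real.rpow_natCast, ← Real.rpow_mul (by norm_num)]
      congr 1; push_cast; ring
    rw [e1, e2, e3, hK]
    have e4 : 16 * (2 : ℝ) ^ e' / c * (2 : ℝ) ^ (-(1 - m - e') * j) *
        ((2 : ℝ) ^ (-e' * (j + N0 + 1)) * (c * (2 : ℝ) ^ ((1 - m) * (j + N0)))) =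
        16 * ((2 : ℝ) ^ e' * (2 : ℝ) ^ (-(1 - m - e') * j) * (2 : ℝ) ^ (-e' * (j + N0 + 1)) *
          (2 : ℝ) ^ ((1 - m) * (j + N0))) := by
      field_simp
    rw [e4, ← Real.rpow_add (by norm_num), ← Real.rpow_add (by norm_num), ← Real.rpow_add (by norm_num)]
    have e5 : e' + -(1 - m - e') * j + -e' * (j + N0 + 1) + (1 - m) * (j + N0) = (1 - m - e') * N0 := by ring
    rw [e5]
    have h2 : (1 : ℝ) ≤ (2 : ℝ) ^ ((1 - m - e') * N0) :=
      Real.one_le_rpow (by norm_num) (mul_nonneg (by linarith) (Nat.cast_nonneg _))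
    linarith
  have hae : ∀ᵐ α : ℝ, ∀ z : ℤ, ∀ᶠ j : ℕ in atTop,
      α ∉ Pool.Agent.X62.MP.Bad (S j) (δ j) ∩ Set.Ico (z : ℝ) (z + 1) := by
    rw [ae_all_iff]
    intro z
    apply ae_eventually_notMem
    refine ne_of_lt ?_
    calc ∑' j, volume (Pool.Agent.X62.MP.Bad (S j) (δ j) ∩ Set.Ico (z : ℝ) (z + 1))
        ≤ ∑' j, ENNReal.ofReal (K * ρ ^ j) := by
          refine ENNReal.tsum_le_tsum fun j => ?_
          exact (Pool.Agent.X62.MP.measure_bad (S j) (hSne j) (δ j) (hδ0 j) (hδ1 j) z).trans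
            (ENNReal.ofReal_le_ofReal (hterm j))
      _ = ENNReal.ofReal (∑' j, K * ρ ^ j) := by
          rw [ENNReal.ofReal_tsum_of_nonneg (fun j => by positivity)
            ((summable_geometric_of_lt_one hρ0.le hρ1).mul_left K)]
      _ < ⊤ := ENNReal.ofReal_lt_top
  unfold Exponent
  filter_upwards [hae] with α hα
  have hα' := hα ⌊α⌋
  obtain ⟨j0, hj0⟩ := eventually_atTop.1 hα'
  filter_upwards [absorb hee' he'0.le, eventually_ge_atTop (2 ^ (j0 + N0 + 1))] with N hN1 hN2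
  intro β
  -- the dyadic range
  have hN0 : N ≠ 0 := by
    have : 0 < 2 ^ (j0 + N0 + 1) := by positivity
    omega
  set l : ℕ := Nat.log 2 N with hl
  have hl1 : 2 ^ l ≤ N := Nat.pow_log_le_self 2 hN0
  have hl2 : N < 2 ^ (l + 1) := Nat.lt_pow_succ_log_self (by norm_num) N
  have hl3 : j0 + N0 + 1 ≤ l := Nat.le_log_of_pow_le (by norm_num) hN2
  obtain ⟨j, hj⟩ : ∃ j, l = j + N0 + 1 := ⟨l - (N0 + 1), by omega⟩
  have hj' : j0 ≤ j := by omega
  have h1 := hj0 j hj'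
  have h2 : α ∈ Set.Ico ((⌊α⌋ : ℤ) : ℝ) (⌊α⌋ + 1) := ⟨Int.floor_le α, Int.lt_floor_add_one α⟩
  have h3 : α ∉ Pool.Agent.X62.MP.Bad (S j) (δ j) := fun h => h1 ⟨h, h2⟩
  unfold Pool.Agent.X62.MP.Bad at h3
  rw [Set.mem_ofPred_eq] at h3
  push Not at h3
  obtain ⟨a, ha, b, hb, z, hz⟩ := h3 β
  have ha' := hS1 j a ha
  have hb' := hS1 j b hb
  refine ⟨a + b, ?_, ?_, z, ?_⟩
  · have : 2 ^ l = 2 ^ (j + N0) + 2 ^ (j + N0) := by rw [hj, pow_succ]; ring
    omega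
  · have := ha'.2.add hb'.2
    rwa [← two_mul] at this
  · push_cast
    refine hz.trans ?_
    simp only [hδ]
    rw [← hj]
    apply hN1
    push_cast
    have : (N : ℝ) < (2 : ℝ) ^ (l + 1) := by exact_mod_cast hl2
    rw [pow_succ] at this
    linarith

/-- **Main theorem.** -/
theorem result :
    -- (1) `2 s` powers
    (∀ k s : ℕ, 2 ≤ k → 1 ≤ s → ∀ e : ℝ, e < 1 - (1 - 1 / (k : ℝ)) ^ s → Exponent k (2 * s) e) ∧
    -- (2) `2 k + 1` powers, and `4 k` powers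
    (∀ k : ℕ, 2 ≤ k → Exponent k (2 * k + 1) 0.632 ∧ Exponent k (4 * k) 0.864) ∧
    -- (3) `O(k)` powers
    (∀ ε : ℝ, 0 < ε → ∃ B : ℕ, ∀ k : ℕ, 2 ≤ k → Exponent k (B * k) (1 - ε)) := by
  refine ⟨fun k s hk hs e he => main hk hs he, fun k hk => ⟨?_, ?_⟩, fun ε hε => ?_⟩
  · have h1 := (μ_exp hk 1).trans exp_neg_1
    rw [mul_one] at h1
    have h2 : Exponent k (2 * k) 0.63205 := main hk (by omega) (by linarith)
    exact h2.succ (by norm_num) (by norm_num)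
  · have h1 := (μ_exp hk 2).trans exp_neg_2
    have h2 : Exponent k (2 * (k * 2)) 0.864 := main hk (by omega) (by linarith)
    rwa [show 2 * (k * 2) = 4 * k by ring] at h2
  · obtain ⟨B, hB⟩ := exists_nat_gt (max 1 (-Real.log ε))
    have hB1 : (1 : ℝ) < B := (le_max_left _ _).trans_lt hB
    have hB2 : -Real.log ε < B := (le_max_right _ _).trans_lt hB
    have hB1' : 1 < B := by exact_mod_cast hB1
    refine ⟨2 * B, fun k hk => ?_⟩
    have h1 : μ k (k * B) < ε := by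
      refine (μ_exp hk B).trans_lt ?_
      rw [← Real.exp_log hε, Real.exp_lt_exp]
      linarith
    have h2 : Exponent k (2 * (k * B)) (1 - ε) := main hk (Nat.mul_pos (by omega) (by omega)) (by linarith)
    rwa [show 2 * (k * B) = 2 * B * k by ring] at h2

end Pool.Agent.Results.MP_efcac8_nt.MetricFractionalParts
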